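import Pool.Agent.MP_c1891a_nt.H79.Spec

/-!
Formal solutions at an ordinary point and the nonvanishing of the determinant.
-/

set_option autoImplicit false

namespace Pool.Agent.MP_c1891a_nt.H9

open Finset Polynomial Pool.Agent.MP_c1891a_nt.H79

lemma D_mul (a b : PowerSeries ℚ) : D (a * b) = a * D b + b * D a := by
  simp only [D, Derivation.leibniz, smul_eq_mul]

lemma D_add (a b : PowerSeries ℚ) : D (a + b) = D a + D b := by simp only [D, map_add]

lemma D_sub (a b : PowerSeries ℚ) : D (a - b) = D a - D b := by simp only [D, map_sub]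

lemma D_zero : D 0 = 0 := by simp only [D, map_zero]

lemma D_C (a : ℚ) : D (PowerSeries.C a) = 0 := by simp only [D, PowerSeries.derivative_C]

lemma D_sum {ι : Type} (s : Finset ι) (g : ι → PowerSeries ℚ) :
    D (∑ i ∈ s, g i) = ∑ i ∈ s, D (g i) := by simp only [D, map_sum]

lemma D_pow (T : PowerSeries ℚ) (k : ℕ) : T * D (T ^ k) = k * T ^ k * D T := by
  induction k with
  | zero => simp [D]
  | succ k ih =>
    rw [pow_succ, D_mul]
    push_cast
    linear_combination T * ih

/-- the coefficients of the formal solution. -/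
noncomputable def co {n : ℕ} (B : Fin n → Fin n → PowerSeries ℚ) (u : Fin n → ℚ) :
    ℕ → Fin n → ℚ
  | 0 => u
  | m + 1 => fun i => (∑ j, ∑ p : Fin (m + 1),
      PowerSeries.coeff (m - p) (B i j) * co B u p j) / (m + 1)
decreasing_by exact p.2

theorem fund : SFund := by
  intro n T B hT u
  let B' : Fin n → Fin n → PowerSeries ℚ := fun i j => T⁻¹ * B i j
  refine ⟨fun i => PowerSeries.mk fun m => co B' u m i, fun i => ?_, fun i => ?_⟩
  · rw [← PowerSeries.coeff_zero_eq_constantCoeff_apply, PowerSeries.coeff_mk, co]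
  have e : D (PowerSeries.mk fun m => co B' u m i) =
      ∑ j, B' i j * PowerSeries.mk fun m => co B' u m j := by
    ext m
    rw [D, PowerSeries.coeff_derivative, PowerSeries.coeff_mk, co, map_sum,
      div_mul_cancel₀ _ (by positivity)]
    refine sum_congr rfl fun j _ => ?_
    rw [mul_comm, PowerSeries.coeff_mul, Finset.Nat.sum_antidiagonal_eq_sum_range_succ_mk,
      Finset.sum_range]
    refine sum_congr rfl fun p _ => ?_
    rw [PowerSeries.coeff_mk, mul_comm]
  rw [e, mul_sum]
  refine sum_congr rfl fun j _ => ?_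
  simp only [B']
  rw [← mul_assoc, ← mul_assoc, PowerSeries.mul_inv_cancel _ hT, one_mul]

lemma ord_eq {g h : PowerSeries ℚ} (hg : g ≠ 0) (hh : h ≠ 0) (e : g * D h = h * D g) :
    g.order.toNat = h.order.toNat := by
  have a := PowerSeries.X_pow_order_mul_divXPowOrder (f := g)
  have b := PowerSeries.X_pow_order_mul_divXPowOrder (f := h)
  have a0 := PowerSeries.constantCoeff_divXPowOrder_eq_zero_iff.not.2 hg
  have b0 := PowerSeries.constantCoeff_divXPowOrder_eq_zero_iff.not.2 hh
  generalize g.order.toNat = s at a ⊢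
  generalize h.order.toNat = t at b ⊢
  generalize g.divXPowOrder = g₀ at a a0
  generalize h.divXPowOrder = h₀ at b b0
  subst a b
  have hs := D_pow PowerSeries.X s
  have ht := D_pow PowerSeries.X t
  have hX : D PowerSeries.X = 1 := by simp only [D, PowerSeries.derivative_X]
  rw [hX] at hs ht
  rw [D_mul, D_mul] at e
  have k : (PowerSeries.X : PowerSeries ℚ) ^ s * PowerSeries.X ^ t *
      (((t : PowerSeries ℚ) - (s : PowerSeries ℚ)) * g₀ * h₀ + PowerSeries.X * (g₀ * D h₀ - h₀ * D g₀)) = 0 := by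
    linear_combination PowerSeries.X * e - PowerSeries.X ^ s * g₀ * h₀ * ht +
      PowerSeries.X ^ t * g₀ * h₀ * hs
  have hX0 : (PowerSeries.X : PowerSeries ℚ) ≠ 0 := PowerSeries.X_ne_zero
  have k' := (mul_eq_zero.1 k).resolve_left
    (mul_ne_zero (pow_ne_zero _ hX0) (pow_ne_zero _ hX0))
  have k2 := congrArg PowerSeries.constantCoeff k'
  simp only [map_add, map_mul, map_sub, map_natCast, PowerSeries.constantCoeff_X, zero_mul,
    add_zero, map_zero, mul_eq_zero, a0, b0, or_false, sub_eq_zero, Nat.cast_inj] at k2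
  exact k2.symm

lemma const_of {g h : PowerSeries ℚ} (hg : g ≠ 0) (e : g * D h = h * D g) :
    ∃ l : ℚ, h = PowerSeries.C l * g := by
  refine ⟨PowerSeries.coeff g.order.toNat h / PowerSeries.coeff g.order.toNat g, ?_⟩
  set l := PowerSeries.coeff g.order.toNat h / PowerSeries.coeff g.order.toNat g with hl
  by_contra hne
  have hh : h - PowerSeries.C l * g ≠ 0 := sub_ne_zero.2 hne
  have := ord_eq hg hh (by rw [D_sub, D_mul, D_C]; linear_combination e)
  refine PowerSeries.coeff_order hh ?_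
  rw [← this, map_sub, PowerSeries.coeff_C_mul, hl,
    div_mul_cancel₀ _ (PowerSeries.coeff_order hg), sub_self]

lemma wr {ι : Type} [Fintype ι] [DecidableEq ι] (x : ι → PowerSeries ℚ)
    (hx : ∀ u : ι → ℚ, ∑ i, PowerSeries.C (u i) * x i = 0 → u = 0) (m : ℕ) :
    ∀ s : Finset ι, s.card = m → ∀ v : ι → PowerSeries ℚ,
      (∀ j < m, ∑ i ∈ s, v i * D^[j] (x i) = 0) → ∀ i ∈ s, v i = 0 := by
  induction m with
  | zero => intro s hs v _ i hi; rw [card_eq_zero.1 hs] at hi; simp at hi
  | succ m ih =>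
    intro s hs v hv i₀ hi₀
    by_contra h0
    have h1 : ∀ j < m, ∑ i ∈ s, D (v i) * D^[j] (x i) = 0 := fun j hj => by
      have a := congrArg D (hv j (by omega))
      have b := hv (j + 1) (by omega)
      simp only [Function.iterate_succ_apply'] at b
      rw [D_sum, D_zero] at a
      simp only [D_mul, sum_add_distrib, b, zero_add] at a
      rw [← a]
      exact sum_congr rfl fun i _ => mul_comm _ _
    have h2 := ih (s.erase i₀) (by rw [card_erase_of_mem hi₀, hs]; rfl)
      (fun i => v i₀ * D (v i) - v i * D (v i₀)) fun j hj => by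
        rw [sum_erase _ (by simp)]
        have : ∑ i ∈ s, (v i₀ * D (v i) - v i * D (v i₀)) * D^[j] (x i) =
            v i₀ * ∑ i ∈ s, D (v i) * D^[j] (x i) - D (v i₀) * ∑ i ∈ s, v i * D^[j] (x i) := by
          rw [mul_sum, mul_sum, ← sum_sub_distrib]
          exact sum_congr rfl fun i _ => by ring
        rw [this, h1 j hj, hv j (by omega)]
        simp
    have h3 : ∀ i ∈ s, ∃ l : ℚ, v i = PowerSeries.C l * v i₀ := fun i hi => by
      by_cases e : i = i₀
      · exact ⟨1, by simp [e]⟩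
      · exact const_of h0 (sub_eq_zero.1 (h2 i (mem_erase.2 ⟨e, hi⟩)))
    choose! l hl using h3
    have h4 := hx (fun i => if i ∈ s then l i else 0) (by
      have a := hv 0 (by omega)
      have : v i₀ * ∑ i, PowerSeries.C (if i ∈ s then l i else 0) * x i = 0 := by
        rw [← a, mul_sum, ← sum_subset (subset_univ s) fun i _ hi => by simp [hi]]
        refine sum_congr rfl fun i hi => ?_
        rw [if_pos hi, Function.iterate_zero_apply]
        linear_combination (-x i) * hl i hi
      exact (mul_eq_zero.1 this).resolve_left h0)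
    have h5 := congrFun h4 i₀
    simp only [hi₀, if_true, Pi.zero_apply] at h5
    have h6 := hl i₀ hi₀
    rw [h5] at h6
    exact h0 (by simpa using h6)

lemma sep {κ : Type} [Fintype κ] (y : κ → PowerSeries ℚ) :
    ∃ (L : ℕ) (π : κ → Fin L → ℚ[X]), ∀ a : κ → ℚ[X],
      ∑ k, (a k : PowerSeries ℚ) * y k = 0 ↔ ∀ l, ∑ k, a k * π k l = 0 := by
  let N : Submodule ℚ[X] (PowerSeries ℚ) := Submodule.span ℚ[X] (Set.range y)
  have sm : ∀ (p : ℚ[X]) (g : PowerSeries ℚ), p • g = (p : PowerSeries ℚ) * g := fun p g => by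
    rw [Algebra.smul_def]
    rfl
  have : Module.Finite ℚ[X] N := Module.Finite.span_of_finite _ (Set.finite_range y)
  have : Module.IsTorsionFree ℚ[X] (PowerSeries ℚ) := ⟨fun p hp g g' e => by
    have e' : (p : PowerSeries ℚ) * g = (p : PowerSeries ℚ) * g' := by
      rw [← sm, ← sm]
      exact e
    exact mul_left_cancel₀ (Polynomial.coe_eq_zero_iff.not.2 hp.ne_zero) e'⟩
  have : Module.Free ℚ[X] N := Module.free_of_finite_type_torsion_free'
  let b := Module.finBasis ℚ[X] N
  let Y : κ → N := fun k => ⟨y k, Submodule.subset_span ⟨k, rfl⟩⟩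
  refine ⟨_, fun k l => b.repr (Y k) l, fun a => ?_⟩
  have e1 : ∑ k, (a k : PowerSeries ℚ) * y k = 0 ↔ ∑ k, a k • Y k = 0 := by
    rw [← Subtype.coe_inj]
    simp only [AddSubmonoidClass.coe_finsetSum, SetLike.val_smul, ZeroMemClass.coe_zero, sm, Y]
  rw [e1, ← b.repr.map_eq_zero_iff, Finsupp.ext_iff]
  simp only [map_sum, map_smul, Finsupp.coe_finsetSum, Finset.sum_apply, Finsupp.coe_smul,
    Pi.smul_apply, smul_eq_mul, Finsupp.coe_zero, Pi.zero_apply]

lemma stab {κ : Type} [Fintype κ] (g : κ → PowerSeries ℚ) : ∃ m : ℕ, ∀ u : κ → ℚ,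
    (∀ k < m, PowerSeries.coeff k (∑ j, PowerSeries.C (u j) * g j) = 0) →
      ∑ j, PowerSeries.C (u j) * g j = 0 := by
  let Λ : (κ → ℚ) →ₗ[ℚ] PowerSeries ℚ := Fintype.linearCombination ℚ g
  have hΛ : ∀ u, Λ u = ∑ j, PowerSeries.C (u j) * g j := fun u => by
    simp only [Λ, Fintype.linearCombination_apply, PowerSeries.smul_eq_C_mul]
  let U : ℕ → Submodule ℚ (κ → ℚ) := fun m =>
    ⨅ k ∈ range m, LinearMap.ker ((PowerSeries.coeff k).comp Λ)
  have hU : ∀ m u, u ∈ U m ↔ ∀ k < m, PowerSeries.coeff k (Λ u) = 0 := fun m u => by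
    simp only [U, Submodule.mem_iInf, mem_range, LinearMap.mem_ker, LinearMap.comp_apply]
  obtain ⟨m, hm⟩ := IsArtinian.monotone_stabilizes (R := ℚ) (M := κ → ℚ)
    ⟨fun m => OrderDual.toDual (U m), fun a b hab u hu =>
      (hU a u).2 fun k hk => (hU b u).1 hu k (hk.trans_le hab)⟩
  refine ⟨m, fun u hu => ?_⟩
  rw [← hΛ] at hu ⊢
  ext k
  have e : U m = U (max m (k + 1)) := hm _ (le_max_left _ _)
  exact (hU _ u).1 (e ▸ (hU m u).2 hu) k (by omega)

/-- expansion at the point `c`. -/
noncomputable def sh (c : ℚ) : ℚ[X] →+* PowerSeries ℚ :=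
  Polynomial.coeToPowerSeries.ringHom.comp (taylorAlgHom c).toRingHom

lemma sh_apply (c : ℚ) (p : ℚ[X]) : sh c p = ((taylor c p : ℚ[X]) : PowerSeries ℚ) := rfl

lemma sh_D (c : ℚ) (p : ℚ[X]) : sh c (derivative p) = D (sh c p) := by
  rw [sh_apply, sh_apply, D, PowerSeries.derivative_coe]
  simp [taylor_apply, derivative_comp]

lemma sh_C (c a : ℚ) : sh c (C a) = PowerSeries.C a := by
  rw [sh_apply, taylor_C, Polynomial.coe_C]

lemma sh_zero (c : ℚ) (p : ℚ[X]) : PowerSeries.constantCoeff (sh c p) = p.eval c := by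
  rw [sh_apply, ← PowerSeries.coeff_zero_eq_constantCoeff_apply, Polynomial.coeff_coe,
    taylor_coeff_zero]

lemma dual {r : ℕ} (c : ℚ) (T : ℚ[X]) (A : Fin (r + 1) → Fin (r + 1) → ℚ[X])
    (P : Fin (r + 1) → ℚ[X]) (y : Fin (r + 1) → PowerSeries ℚ)
    (hy : ∀ i, sh c T * D (y i) = ∑ j, -sh c (A j i) * y j) (k : ℕ) :
    ∑ i, y i * sh c (RR T A P k i) = sh c T ^ k * D^[k] (∑ i, y i * sh c (P i)) := by
  induction k with
  | zero => simp [RR]
  | succ k ih =>
    have a := congrArg (fun g => sh c T * D g) ih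
    simp only [D_sum, D_mul, mul_add, mul_sum, sum_add_distrib] at a
    have b : ∑ i, sh c T * (sh c (RR T A P k i) * D (y i)) =
        -∑ i, y i * ∑ j, sh c (A i j) * sh c (RR T A P k j) := by
      simp only [mul_left_comm (sh c T), hy, mul_sum]
      rw [sum_comm, ← sum_neg_distrib]
      refine sum_congr rfl fun i _ => ?_
      rw [← sum_neg_distrib]
      exact sum_congr rfl fun j _ => by ring
    have d : ∑ i, y i * sh c (RR T A P (k + 1) i) =
        ∑ i, sh c T * (y i * D (sh c (RR T A P k i))) -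
          k * D (sh c T) * ∑ i, y i * sh c (RR T A P k i) -
          ∑ i, y i * ∑ j, sh c (A i j) * sh c (RR T A P k j) := by
      rw [mul_sum, ← sum_sub_distrib, ← sum_sub_distrib]
      refine sum_congr rfl fun i _ => ?_
      simp only [RR, map_sub, map_mul, map_sum, sh_D, map_natCast]
      ring
    rw [d, Function.iterate_succ_apply', ih]
    rw [b] at a
    linear_combination a + D^[k] (∑ i, y i * sh c (P i)) * D_pow (sh c T) k

lemma ord_ge {n e : ℕ} {Q : ℚ[X]} {S : PowerSeries ℚ} (hQ : Q ≠ 0) (hn : Q.natDegree ≤ n)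
    (h : ∀ j ≤ n + e, PowerSeries.coeff j ((Q : PowerSeries ℚ) * S) = 0) :
    ∀ k ≤ e, PowerSeries.coeff k S = 0 := fun k hk => by
  by_contra hS
  have a := PowerSeries.order_le k hS
  have b := PowerSeries.order_le (φ := (Q : PowerSeries ℚ)) Q.natDegree (by
    rw [Polynomial.coeff_coe]
    exact leadingCoeff_ne_zero.2 hQ)
  have d := PowerSeries.nat_le_order _ (n + e + 1) fun j hj => h j (by omega)
  rw [PowerSeries.order_mul] at d
  have := d.trans (add_le_add b a)
  rw [← Nat.cast_add, Nat.cast_le] at this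
  omega

theorem non (h : SFund) : SNon := by
  classical
  intro r f T A hS hT
  obtain ⟨c, hc⟩ : ∃ c : ℚ, T.eval c ≠ 0 := by
    by_contra! hc
    exact hT (Polynomial.funext fun c => by rw [hc c, eval_zero])
  choose y hy0 hy using fun j : Fin (r + 1) =>
    h (r + 1) (sh c T) (fun i j => -sh c (A j i)) (by rwa [sh_zero]) (Pi.single j 1)
  obtain ⟨L, π, hπ⟩ := sep fun k : Fin (r + 1) × Fin (r + 1) => y k.1 k.2
  choose m hm using fun l : Fin L =>
    stab fun j : Fin (r + 1) => ∑ i, ((taylor (-c) (π (j, i) l) : ℚ[X]) : PowerSeries ℚ) * f i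
  refine ⟨univ.sup m, fun n e Q P he hP hdet => ?_⟩
  obtain ⟨hQ, hQn, -, hP⟩ := hP
  have hT' : sh c T ≠ 0 := fun e => hc (by rw [← sh_zero, e, map_zero])
  have h1 : ((Matrix.of y) * (sh c).mapMatrix
      (Matrix.of fun i k : Fin (r + 1) => RR T A P k i)).det = 0 := by
    rw [Matrix.det_mul, ← RingHom.map_det, hdet, map_zero, mul_zero]
  obtain ⟨v, hv0, hv⟩ := Matrix.exists_vecMul_eq_zero_iff.2 h1
  have h2 : ∀ k < r + 1, ∑ j, v j * D^[k] (∑ i, y j i * sh c (P i)) = 0 := fun k hk => by
    have a := congrFun hv ⟨k, hk⟩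
    simp only [Matrix.vecMul, dotProduct, Matrix.mul_apply, RingHom.mapMatrix_apply,
      Matrix.map_apply, Matrix.of_apply, Pi.zero_apply, dual c T A P _ (hy _)] at a
    refine (mul_eq_zero.1 (?_ : sh c T ^ k * _ = 0)).resolve_left (pow_ne_zero _ hT')
    rw [← a, mul_sum]
    exact sum_congr rfl fun j _ => mul_left_comm _ _ _
  obtain ⟨u, hu, hu0⟩ : ∃ u : Fin (r + 1) → ℚ,
      ∑ j, PowerSeries.C (u j) * ∑ i, y j i * sh c (P i) = 0 ∧ u ≠ 0 := by
    by_contra! H
    exact hv0 (funext fun j => wr _ H (r + 1) univ (by simp) v h2 j (mem_univ _))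
  let ψ : Fin L → Fin (r + 1) → ℚ[X] := fun l i => ∑ j, C (u j) * taylor (-c) (π (j, i) l)
  have h3 : ∀ l, ∑ i, ψ l i * P i = 0 := fun l => by
    have a := (hπ fun k => C (u k.1) * taylor c (P k.2)).1 (by
      rw [← hu, Fintype.sum_prod_type]
      refine sum_congr rfl fun j _ => ?_
      rw [mul_sum]
      refine sum_congr rfl fun i _ => ?_
      rw [Polynomial.coe_mul, Polynomial.coe_C, sh_apply]
      ring) l
    have b := congrArg (taylor (-c)) a
    rw [Fintype.sum_prod_type, sum_comm] at b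
    simp only [map_sum, taylor_mul, taylor_C, taylor_taylor, neg_add_cancel, taylor_zero,
      map_zero] at b
    rw [← b]
    refine sum_congr rfl fun i _ => ?_
    simp only [ψ, sum_mul]
    exact sum_congr rfl fun j _ => by ring
  have h4 : ∀ l, ∑ i, (ψ l i : PowerSeries ℚ) * f i = ∑ j, PowerSeries.C (u j) *
      ∑ i, ((taylor (-c) (π (j, i) l) : ℚ[X]) : PowerSeries ℚ) * f i := fun l => by
    simp only [ψ, mul_sum, ← Polynomial.coeToPowerSeries.ringHom_apply, map_sum, map_mul, sum_mul]
    rw [sum_comm]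
    refine sum_congr rfl fun j _ => sum_congr rfl fun i _ => ?_
    rw [Polynomial.coeToPowerSeries.ringHom_apply, Polynomial.coe_C, mul_assoc]
  have h5 : ∀ l i, ψ l i = 0 := fun l => by
    refine hS.2.1 _ ?_
    rw [h4]
    refine hm l u fun k hk => ?_
    rw [← h4]
    have : m l ≤ univ.sup m := le_sup (mem_univ l)
    refine ord_ge (e := e) hQ hQn (fun j hj => ?_) k (by omega)
    have a : (Q : PowerSeries ℚ) * ∑ i, (ψ l i : PowerSeries ℚ) * f i =
        ∑ i, (ψ l i : PowerSeries ℚ) * ((Q : PowerSeries ℚ) * f i - (P i : PowerSeries ℚ)) := by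
      have b := congrArg Polynomial.coeToPowerSeries.ringHom (h3 l)
      simp only [map_sum, map_mul, map_zero, Polynomial.coeToPowerSeries.ringHom_apply] at b
      simp only [mul_sub, sum_sub_distrib, b, sub_zero, mul_sum]
      exact sum_congr rfl fun i _ => mul_left_comm _ _ _
    rw [a, map_sum]
    refine sum_eq_zero fun i _ => ?_
    rw [PowerSeries.coeff_mul]
    refine sum_eq_zero fun p hp => ?_
    have := mem_antidiagonal.1 hp
    rw [hP i p.2 (by omega), mul_zero]
  refine hu0 (funext fun i => ?_)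
  have h6 := (hπ fun k => if k.2 = i then C (u k.1) else 0).2 fun l => by
    have a := congrArg (taylor c) (h5 l i)
    simp only [ψ, map_sum, taylor_mul, taylor_C, taylor_taylor, add_neg_cancel, taylor_zero,
      map_zero] at a
    rw [Fintype.sum_prod_type]
    refine Eq.trans (sum_congr rfl fun j _ => ?_) a
    simp
  have h7 := congrArg PowerSeries.constantCoeff h6
  rw [Fintype.sum_prod_type] at h7
  simp only [map_sum, map_mul, hy0, map_zero] at h7
  rw [sum_eq_single i, sum_eq_single i] at h7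
  · simpa using h7
  · intro b _ hb
    simp [hb]
  · simp
  · intro b _ hb
    refine sum_eq_zero fun x _ => ?_
    by_cases e : x = i
    · simp [e, hb.symm]
    · simp [e]
  · simp

end Pool.Agent.MP_c1891a_nt.H9
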