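import Pool.Agent.MP_c1891a_nt.H43.Spec

/-! A unit value has a very small conjugate. -/

namespace Pool.Agent.MP_c1891a_nt.H43

open Finset Filter Topology

theorem spike_ev (P : LP) (e : Fin 2 → ℤ) {ω : ℂ} (h : ω ≠ 0) :
    ev P (ω ^ e 0) (ω ^ e 1) =
      ∑ μ ∈ P.coeff.support, (P.coeff μ : ℂ) * ω ^ (e 0 * μ.1 + e 1 * μ.2) := by
  refine sum_congr rfl fun μ _ => ?_
  rw [zpow_add₀ h, zpow_mul, zpow_mul, mul_assoc]

theorem spike_pow (ξ : ℂ) (a : ℤ) (j : ℕ) : (ξ ^ a) ^ j = (ξ ^ j) ^ a := by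
  rw [← zpow_natCast, ← zpow_natCast, ← zpow_mul, ← zpow_mul, mul_comm]

theorem spike_prod (h4 : H79.SNorm) (P : LP) {N : ℕ} (hN : 0 < N) {ξ : ℂ} (e : Fin 2 → ℤ)
    (hξ : IsPrimitiveRoot ξ N) (hU : H79.IsU (ev P (ξ ^ e 0) (ξ ^ e 1))) :
    ∏ j ∈ Cop N, ‖ev P ((ξ ^ e 0) ^ j) ((ξ ^ e 1) ^ j)‖ = 1 := by
  have : NeZero N := ⟨hN.ne'⟩
  have h0 : ξ ≠ 0 := hξ.ne_zero hN.ne'
  rw [spike_ev P e h0] at hU
  have h1 := h4 N hN (ℤ × ℤ) P.coeff.support (fun μ => P.coeff μ)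
    (fun μ => e 0 * μ.1 + e 1 * μ.2) ξ hξ hU
  have h2 : ∏ j ∈ Cop N, ev P ((ξ ^ e 0) ^ j) ((ξ ^ e 1) ^ j) = ∏ ω ∈ primitiveRoots N ℂ,
      ∑ μ ∈ P.coeff.support, (P.coeff μ : ℂ) * ω ^ (e 0 * μ.1 + e 1 * μ.2) := by
    refine prod_bij (fun j _ => ξ ^ j) (fun j hj => ?_) (fun j hj j' hj' h => ?_)
      (fun ω hω => ?_) fun j _ => ?_
    · exact (mem_primitiveRoots hN).2 (hξ.pow_of_coprime j (mem_filter.1 hj).2)
    · exact hξ.pow_inj (mem_range.1 (mem_filter.1 hj).1) (mem_range.1 (mem_filter.1 hj').1) h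
    · obtain ⟨i, hi, hc, rfl⟩ := (hξ.isPrimitiveRoot_iff).1 ((mem_primitiveRoots hN).1 hω)
      exact ⟨i, mem_filter.2 ⟨mem_range.2 hi, hc⟩, rfl⟩
    · rw [spike_pow, spike_pow, spike_ev P e (pow_ne_zero j h0)]
  rw [← norm_prod, h2]
  rcases h1 with h | h <;> rw [h] <;> simp

theorem spike_E {N : ℕ} (hN : 0 < N) {x : ℂ} (hx : x ^ N = 1) :
    ∃ z : ℤ, 0 ≤ z ∧ z < N ∧ E (z / N) = x := by
  have : NeZero N := ⟨hN.ne'⟩
  obtain ⟨i, hi, rfl⟩ := (Complex.isPrimitiveRoot_exp N hN.ne').eq_pow_of_pow_eq_one hx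
  refine ⟨i, by positivity, by exact_mod_cast hi, ?_⟩
  rw [E, ← Complex.exp_nat_mul]
  congr 1
  push_cast
  ring

theorem spike_card (P : LP) {N : ℕ} (hN : 0 < N) {ξ : ℂ} {e : Fin 2 → ℤ}
    (hξ : IsPrimitiveRoot ξ N) (he : Gen N e) (τ K : ℝ)
    (h : ∀ S : Finset (ℤ × ℤ), (∀ z ∈ S, 0 ≤ z.1 ∧ z.1 < N ∧ 0 ≤ z.2 ∧ z.2 < N ∧
      ‖ev P (E (z.1 / N)) (E (z.2 / N))‖ ≤ τ) → (S.card : ℝ) ≤ K) :
    (((Cop N).filter fun j => ‖ev P ((ξ ^ e 0) ^ j) ((ξ ^ e 1) ^ j)‖ ≤ τ).card : ℝ) ≤ K := by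
  have h0 : ξ ≠ 0 := hξ.ne_zero hN.ne'
  have h1 : ∀ (i : Fin 2) (j : ℕ), ∃ z : ℤ, 0 ≤ z ∧ z < N ∧ E (z / N) = (ξ ^ e i) ^ j :=
    fun i j => spike_E hN (by
      rw [← pow_mul, mul_comm, pow_mul, spike_pow ξ _ N, hξ.pow_eq_one, one_zpow, one_pow])
  choose z hz using h1
  rw [← card_image_of_injOn (f := fun j => (z 0 j, z 1 j))]
  · refine h _ fun w hw => ?_
    obtain ⟨j, hj, rfl⟩ := mem_image.1 hw
    refine ⟨(hz 0 j).1, (hz 0 j).2.1, (hz 1 j).1, (hz 1 j).2.1, ?_⟩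
    rw [(hz 0 j).2.2, (hz 1 j).2.2]
    exact (mem_filter.1 hj).2
  · intro j hj j' hj' hh
    have a1 := mem_range.1 (mem_filter.1 (mem_filter.1 hj).1).1
    have a2 := mem_range.1 (mem_filter.1 (mem_filter.1 hj').1).1
    have a3 : ∀ i : Fin 2, z i j = z i j' := by
      intro i
      fin_cases i
      · exact congrArg Prod.fst hh
      · exact congrArg Prod.snd hh
    have a4 := he ((j : ℤ) - j') fun i => by
      have a5 : (ξ ^ e i) ^ j = (ξ ^ e i) ^ j' := by rw [← (hz i j).2.2, ← (hz i j').2.2, a3]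
      rw [← hξ.zpow_eq_one_iff_dvd, mul_comm, zpow_mul, zpow_sub₀ (zpow_ne_zero _ h0),
        zpow_natCast, zpow_natCast, a5, div_self (pow_ne_zero _ (zpow_ne_zero _ h0))]
    have := Int.eq_zero_of_abs_lt_dvd a4 (by rw [abs_lt]; constructor <;> omega)
    omega

theorem sSpike (h1 : SDef) (h2 : SCount) (h3 : SArith) (h4 : H79.SNorm) : SSpike := by
  intro P hc hm hs
  obtain ⟨m₀, B, hm₀, hD⟩ := h1 P hc hm
  obtain ⟨C, A, N₁, hC⟩ := h2 P hc hs (1 / 100) (by norm_num)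
  obtain ⟨N₂, hD⟩ := hD A
  obtain ⟨N₃, hA⟩ := h3 (1 / 200) (by norm_num)
  have ht : Tendsto (fun N : ℕ => m₀ * (N : ℝ) ^ (1 / 200 : ℝ)) atTop atTop :=
    ((tendsto_rpow_atTop (by norm_num)).comp tendsto_natCast_atTop_atTop).const_mul_atTop hm₀
  obtain ⟨N₄, hN₄⟩ := eventually_atTop.1 (ht.eventually_gt_atTop C)
  refine ⟨B, N₁ + N₂ + N₃ + N₄ + 1, fun N hN ξ e hξ he hU hR => ?_⟩
  have hN0 : 0 < N := by omega
  have hN1 : (1 : ℝ) ≤ N := by exact_mod_cast hN0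
  have hNp : (0 : ℝ) < N := by positivity
  have e1 := hD N (by omega) ξ e hξ he hR
  have e2 := spike_card P hN0 hξ he _ _ (hC N (by omega))
  have e3 := spike_prod h4 P hN0 e hξ hU
  have e4 := (hA N (by omega)).1
  have e5 := hN₄ N (by omega)
  obtain ⟨a, ha⟩ : ∃ a : ℕ → ℝ, a = fun j => ‖ev P ((ξ ^ e 0) ^ j) ((ξ ^ e 1) ^ j)‖ := ⟨_, rfl⟩
  have ha' : ∀ j, ‖ev P ((ξ ^ e 0) ^ j) ((ξ ^ e 1) ^ j)‖ = a j := fun j => by rw [ha]
  simp only [ha'] at e1 e2 e3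
  have a0 : ∀ j ∈ Cop N, a j ≠ 0 := prod_ne_zero_iff.1 (by rw [e3]; exact one_ne_zero)
  have a1 : ∑ j ∈ Cop N, Real.log (a j) = 0 := by rw [← Real.log_prod a0, e3, Real.log_one]
  by_contra hcon
  push Not at hcon
  have hτ : ((N : ℝ) ^ A)⁻¹ ≤ 1 := inv_le_one_of_one_le₀ (one_le_pow₀ hN1)
  have a2 : ∀ j ∈ Cop N, Real.log (max (a j) ((N : ℝ) ^ A)⁻¹) ≤ Real.log (a j) +
      if a j ≤ ((N : ℝ) ^ A)⁻¹ then (N : ℝ) ^ (49 / 50 : ℝ) else 0 := by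
    intro j hj
    split_ifs with k
    · have b1 := hcon j (mem_filter.1 hj).2 (by
        rw [← norm_ne_zero_iff, ha']; exact a0 j hj)
      rw [ha'] at b1
      have b2 := Real.log_le_log (Real.exp_pos _) b1.le
      rw [Real.log_exp] at b2
      rw [max_eq_right k]
      have := Real.log_nonpos (by positivity) hτ
      linarith
    · rw [max_eq_left (not_le.1 k).le, add_zero]
  have a3 := e1.trans (sum_le_sum a2)
  rw [sum_add_distrib, a1, zero_add, ← sum_filter, sum_const, nsmul_eq_mul] at a3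
  have a4 := mul_le_mul_of_nonneg_right e2 (Real.rpow_nonneg hNp.le (49 / 50))
  have a5 : (N : ℝ) ^ (1 - 1 / 200 : ℝ) =
      (N : ℝ) ^ (1 / 200 : ℝ) * ((N : ℝ) ^ (1 / 100 : ℝ) * (N : ℝ) ^ (49 / 50 : ℝ)) := by
    rw [← Real.rpow_add hNp, ← Real.rpow_add hNp]; norm_num
  have a6 := mul_le_mul_of_nonneg_left e4 hm₀.le
  have a7 := mul_lt_mul_of_pos_right e5
    (mul_pos (Real.rpow_pos_of_pos hNp (1 / 100)) (Real.rpow_pos_of_pos hNp (49 / 50)))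
  rw [a5] at a6
  linarith

end Pool.Agent.MP_c1891a_nt.H43
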